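import Mathlib
import Pool.Agent.H56.Rk2

open Set Filter Topology Ordinal Order H56.Rk

namespace Pool.Agent.Results.MP_12cd8a_lc.Redundant

lemma lip_aff (a b : ℝ) : LipschitzWith ‖a‖₊ fun t : ℝ => a * t + b :=
  LipschitzWith.of_dist_le_mul fun s t => by
    rw [Real.dist_eq, Real.dist_eq, coe_nnnorm, Real.norm_eq_abs, ← abs_mul]
    exact le_of_eq (congrArg _ (by ring))

/-- On every Polish space, an assignment of ordinals with (P1), the sum part of (P2), (P3) and
(P4) is equivalent to the separation rank on bounded Baire class 1 functions. -/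
theorem result (X : Type) [TopologicalSpace X] [PolishSpace X] (ρ : (X → ℝ) → Ordinal.{0})
    (P1 : ∀ A : Set X, Delta2 A → Approx (ρ (A.indicator 1)) (alpha1 A Aᶜ))
    (P2 : ∀ f g, BB1 f → BB1 g → Lsim (ρ (f + g)) (max (ρ f) (ρ g)))
    (P3 : ∀ (u : ℕ → X → ℝ) (f : X → ℝ), (∀ n, BB1 (u n)) → BB1 f →
      TendstoUniformly u f atTop → Lsim (ρ f) (⨆ n, ρ (u n)))
    (P4 : ∀ (f : X → ℝ) (h : ℝ → ℝ) (K : NNReal), BB1 f → LipschitzWith K h →
      Lsim (ρ (h ∘ f)) (ρ f))
    (f : X → ℝ) (hf : BB1 f) : Approx (ρ f) (alphaF f) := by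
  have dj : ∀ p q : ℝ, p < q → Disjoint {x | f x ≤ p} {x | q ≤ f x} := fun p q h =>
    disjoint_left.2 fun x (h1 : f x ≤ p) (h2 : q ≤ f x) => by linarith
  have lt1 : ∀ η : Ordinal.{0}, η < ω₁ → ω ^ η < ω₁ := fun η h =>
    isPrincipal_opow_omega 1 omega0_lt_omega_one h
  constructor
  · intro η h1 h2 h
    have sep : ∀ p q : ℚ, p < q → ∃ w, (BB1 w ∧ ρ w ≤ ω ^ η) ∧ ∀ x, (w x = 0 ∨ w x = 1) ∧
        (f x ≤ p → w x = 1) ∧ (q ≤ f x → w x = 0) := fun p q hpq => by
      have a1 : alpha1 {x | f x ≤ p} {x | q ≤ f x} ≤ ω ^ η :=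
        (Ordinal.le_iSup (fun r : {r : ℚ × ℚ // r.1 < r.2} =>
          alpha1 {x | f x ≤ r.1.1} {x | r.1.2 ≤ f x}) ⟨(p, q), hpq⟩).trans h
      have e := G_empty (hf.gdelta p) (hf.gdelta' q) (dj _ _ (by exact_mod_cast hpq)) a1
      have d := delta_tdiff (G_cseq e) (lt1 η h2)
      obtain ⟨s1, s2⟩ := G_sep e
      refine ⟨_, ⟨d.bb1, (P1 _ d).1 η h1 h2
        (csInf_le' ⟨_, G_cseq e, subset_rfl, disjoint_compl_right⟩)⟩, fun x => ⟨?_, ?_, ?_⟩⟩
      · by_cases hx : x ∈ tdiff (G {x | f x ≤ p} {x | q ≤ f x}) (ω ^ η) <;> simp [hx]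
      · intro hx; simp [s1 hx]
      · intro hx; simp [disjoint_right.1 s2 hx]
    obtain ⟨M, hM⟩ := hf.1
    obtain ⟨N, hN⟩ := exists_nat_ge M
    have ap : ∀ m : ℕ, ∃ s, (BB1 s ∧ ρ s ≤ ω ^ η) ∧ ∀ x, |f x - s x| ≤ 1 / ((m : ℝ) + 1) := by
      intro m
      have e0 : (0 : ℝ) < 1 / ((m : ℝ) + 1) := by positivity
      let p : ℕ → ℚ := fun k => -N + k * (1 / ((m : ℚ) + 1))
      have pe : ∀ k, (p k : ℝ) = -N + k * (1 / ((m : ℝ) + 1)) := fun k => by simp [p]
      have ps : ∀ k, (p (k + 1) : ℝ) = p k + 1 / ((m : ℝ) + 1) := fun k => by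
        rw [pe, pe]; push_cast; ring
      have pl : ∀ k, p k < p (k + 1) := fun k => by
        have : (p k : ℝ) < p (k + 1) := by rw [ps]; linarith
        exact_mod_cast this
      have ind : ∀ k : ℕ, ∃ s, (BB1 s ∧ ρ s ≤ ω ^ η) ∧ ∀ x,
          |min (f x) (p k) - s x| ≤ 1 / ((m : ℝ) + 1) ∧ (p k ≤ f x → s x = p k) := by
        intro k
        induction k with
        | zero =>
          obtain ⟨w, hw, -⟩ := sep _ _ (pl 0)
          refine ⟨_, ⟨hw.1.comp (lip_aff 0 (p 0)).continuous,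
            P4 w _ _ hw.1 (lip_aff 0 (p 0)) η h1 h2 hw.2⟩, fun x => ⟨?_, fun _ => by simp⟩⟩
          have : (p 0 : ℝ) ≤ f x := by
            rw [pe]; simp only [Nat.cast_zero, zero_mul, add_zero]
            linarith [(abs_le.1 (hM x)).1]
          rw [min_eq_right this]
          simpa using e0.le
        | succ k ih =>
          obtain ⟨s, hs, hs'⟩ := ih
          obtain ⟨w, hw, hw'⟩ := sep _ _ (pl k)
          have L := lip_aff (-(1 / ((m : ℝ) + 1))) (1 / ((m : ℝ) + 1))
          have b := hw.1.comp L.continuous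
          refine ⟨_, ⟨hs.1.add b, P2 _ _ hs.1 b η h1 h2
            (max_le hs.2 (P4 w _ _ hw.1 L η h1 h2 hw.2))⟩, fun x => ?_⟩
          obtain ⟨a1, a2⟩ := hs' x
          obtain ⟨w1, w2, w3⟩ := hw' x
          have q := ps k
          simp only [Pi.add_apply, Function.comp_apply]
          generalize 1 / ((m : ℝ) + 1) = ε at *
          refine ⟨?_, fun h => by rw [w3 h, a2 (by linarith)]; linarith⟩
          rcases le_or_gt (f x) (p k) with h | h
          · rw [min_eq_left h] at a1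
            rw [w2 h, min_eq_left (by linarith)]
            simpa using a1
          · rw [a2 h.le]
            rcases le_or_gt (p (k + 1) : ℝ) (f x) with h' | h'
            · rw [w3 h', min_eq_right h', abs_le]; constructor <;> linarith
            · rw [min_eq_left h'.le, abs_le]
              rcases w1 with w1 | w1 <;> rw [w1] <;> constructor <;> linarith
      obtain ⟨s, hs, hs'⟩ := ind (2 * N * (m + 1))
      refine ⟨s, hs, fun x => ?_⟩
      have : f x ≤ p (2 * N * (m + 1)) := by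
        rw [pe]; push_cast; field_simp
        nlinarith [(abs_le.1 (hM x)).2, Nat.cast_nonneg (α := ℝ) m]
      have h3 := (hs' x).1
      rwa [min_eq_left this] at h3
    choose s hs hs' using ap
    refine P3 s f (fun n => (hs n).1) hf ?_ η h1 h2 (Ordinal.iSup_le fun n => (hs n).2)
    refine Metric.tendstoUniformly_iff.2 fun ε hε => ?_
    filter_upwards [tendsto_one_div_add_atTop_nhds_zero_nat.eventually (gt_mem_nhds hε)]
      with n hn x using (hs' n x).trans_lt hn
  · intro η h1 h2 h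
    refine Ordinal.iSup_le ?_
    rintro ⟨⟨p, q⟩, hpq⟩
    have pq : (p : ℝ) < q := by exact_mod_cast hpq
    by_contra hc
    obtain ⟨x, hx⟩ := nonempty_iff_ne_empty.2 fun e => hc (alpha1_le e)
    let := TopologicalSpace.upgradeIsCompletelyMetrizable X
    obtain ⟨K, c1, c2, -, -, c5, c6⟩ := exists_K _ (lt1 η h2) x hx 1 one_pos
    set B := {x | f x ≤ (p : ℝ)} with hB
    set C := {x | (q : ℝ) ≤ f x} with hC
    have dA : Delta2 (K ∩ B) := delta_sub c1 c2 inter_subset_left
    have dK : Delta2 (K ∩ (B ∪ C)) := delta_sub c1 c2 inter_subset_left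
    have rK : ρ ((K ∩ (B ∪ C)).indicator 1) ≤ ω ^ η := (P1 _ dK).1 η h1 h2
      ((alpha_punct c1 inter_subset_left (x := x) fun y hy =>
        (c5 y hy).imp_right fun h => ⟨hy, h⟩).trans (left_le_opow ω (zero_lt_one.trans_le h1)))
    have L1 := ((lip_aff (-1 / (q - p)) (q / (q - p))).const_min 1).const_max 0
    have L2 := (lip_aff 1 (-1)).max_const 0
    have b1 := hf.comp L1.continuous
    have r := P4 _ _ _ (b1.add dK.bb1) L2 η h1 h2
      (P2 _ _ b1 dK.bb1 η h1 h2 (max_le (P4 f _ _ hf L1 η h1 h2 h) rK))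
    have d0 : (0 : ℝ) < q - p := sub_pos.2 pq
    have e : (fun t : ℝ => max (1 * t + -1) 0) ∘ ((fun t : ℝ =>
        max 0 (min 1 (-1 / (q - p) * t + q / (q - p)))) ∘ f + (K ∩ (B ∪ C)).indicator 1) =
        (K ∩ B).indicator 1 := by
      ext y
      have e1 : -1 / ((q : ℝ) - p) * f y + q / (q - p) = (q - f y) / (q - p) := by ring
      simp only [Function.comp_apply, Pi.add_apply, e1]
      by_cases hy : y ∈ K ∩ B
      · have : 1 ≤ (q - f y) / ((q : ℝ) - p) := by
          rw [le_div_iff₀ d0]; linarith [show f y ≤ p from hy.2]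
        rw [indicator_of_mem hy, indicator_of_mem (show y ∈ K ∩ (B ∪ C) from ⟨hy.1, Or.inl hy.2⟩),
          min_eq_left this]
        simp
      · rw [indicator_of_notMem hy]
        by_cases hy' : y ∈ K ∩ (B ∪ C)
        · have h3 : (q : ℝ) ≤ f y := hy'.2.resolve_left fun h => hy ⟨hy'.1, h⟩
          have : (q - f y) / ((q : ℝ) - p) ≤ 0 := div_nonpos_of_nonpos_of_nonneg (by linarith) d0.le
          rw [indicator_of_mem hy', max_eq_left (min_le_of_right_le this)]
          simp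
        · rw [indicator_of_notMem hy']
          refine max_eq_right ?_
          have : max 0 (min 1 ((q - f y) / ((q : ℝ) - p))) ≤ 1 :=
            max_le zero_le_one (min_le_left _ _)
          linarith
    rw [e] at r
    have z := G_empty dA.1 dA.2 disjoint_compl_right ((P1 _ dA).2 η h1 h2 r)
    have : x ∈ G (K ∩ B) (K ∩ B)ᶜ (ω ^ η) := G_mono subset_rfl
      (show K ∩ C ⊆ (K ∩ B)ᶜ from fun y hy hy' => disjoint_left.1 (dj _ _ pq) hy'.2 hy.2) _ c6
    rw [z] at this
    exact this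

end Pool.Agent.Results.MP_12cd8a_lc.Redundant
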